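import Pool.Agent.H747EB.B3
import Pool.Agent.H747EB.B4
import Pool.Agent.H747EB.B5
import Pool.Agent.H747EB.B7

set_option autoImplicit false

open Set
open scoped ContDiff

namespace Pool.Agent.Results.MP_eab5ac_an.SmoothNonneg

open Pool.Agent.H747EB

/-- The admissible nonlinearities: `f = f(r,u)` is continuously differentiable on
`[0,1] × [0,∞)` and its derivative in `r` is nonpositive there. -/
def Admissible (f : ℝ → ℝ → ℝ) : Prop :=
  ContDiffOn ℝ 1 (Function.uncurry f) (Icc 0 1 ×ˢ Ici 0) ∧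
    ∀ r ∈ Icc (0 : ℝ) 1, ∀ u : ℝ, 0 ≤ u → derivWithin (fun t => f t u) (Icc 0 1) r ≤ 0

/-- `u` is a (classical) positive solution of
`u'' + (n - 1)/r u' + lam f(r,u) = 0` on `(0,1)`, `u'(0) = u(1) = 0`, with `lam > 0`:
`u` is twice continuously differentiable on `[0,1]` and positive on `[0,1)`. -/
def PositiveSolution (n : ℝ) (f : ℝ → ℝ → ℝ) (lam : ℝ) (u : ℝ → ℝ) : Prop :=
  0 < lam ∧ ContDiffOn ℝ 2 u (Icc 0 1) ∧ derivWithin u (Icc 0 1) 0 = 0 ∧ u 1 = 0 ∧
    (∀ r : ℝ, 0 ≤ r → r < 1 → 0 < u r) ∧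
    ∀ r ∈ Ioo (0 : ℝ) 1, deriv (deriv u) r + (n - 1) / r * deriv u r + lam * f r (u r) = 0

/-- `u(0)` is a global parameter: it determines the solution pair `(lam, u)`. -/
def IsGlobalParameter (n : ℝ) (f : ℝ → ℝ → ℝ) : Prop :=
  ∀ (lam₁ lam₂ : ℝ) (u₁ u₂ : ℝ → ℝ), PositiveSolution n f lam₁ u₁ →
    PositiveSolution n f lam₂ u₂ → u₁ 0 = u₂ 0 → lam₁ = lam₂ ∧ EqOn u₁ u₂ (Icc 0 1)

lemma W_contDiff {n : ℝ} (P : Prof n) : ContDiff ℝ 2 P.W := by
  have h : ContDiff ℝ (1 + 1) P.W := by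
    rw [contDiff_succ_iff_deriv]
    refine ⟨fun t => (P.W_deriv t).differentiableAt, by simp, ?_⟩
    have : deriv P.W = P.V := funext fun t => (P.W_deriv t).deriv
    rw [this]
    exact P.V_smooth.of_le (by exact_mod_cast le_top)
  exact_mod_cast h

lemma solution {n : ℝ} (P : Prof n) {T α c : ℝ} (hT : 0 < T) (hc : 0 < c) (hα : P.W T = α)
    {f : ℝ → ℝ → ℝ}
    (hf : ∀ r ∈ Ioo (0 : ℝ) 1, f r (c * (α - P.W (T * r))) = c * P.F (T * r)) :
    PositiveSolution n f (T ^ 2) (fun r => c * (α - P.W (T * r))) := by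
  have hd : ∀ r, HasDerivAt (fun r => c * (α - P.W (T * r))) (-(c * (P.V (T * r) * T))) r := by
    intro r
    have h1 : HasDerivAt (fun r : ℝ => T * r) T r := by
      simpa using (hasDerivAt_id r).const_mul T
    have h2 := (((P.W_deriv (T * r)).comp r h1).const_sub α).const_mul c
    refine h2.congr_deriv ?_
    ring
  refine ⟨by positivity, ?_, ?_, ?_, ?_, ?_⟩
  · refine ContDiff.contDiffOn ?_
    exact contDiff_const.mul
      (contDiff_const.sub ((W_contDiff P).comp (contDiff_const.mul contDiff_id)))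
  · have h0 : P.V (T * 0) = 0 := by
      rw [mul_zero, P.V_left 0 P.t0_pos.le]; simp
    have h := hd 0
    rw [h0, zero_mul, mul_zero, neg_zero] at h
    exact h.hasDerivWithinAt.derivWithin (uniqueDiffOn_Icc one_pos 0 (by simp))
  · simp [hα]
  · intro r h0 h1
    have : P.W (T * r) < P.W T := by
      refine P.W_strictMonoOn (mem_Ici.2 (by positivity)) (mem_Ici.2 hT.le) ?_
      nlinarith
    simp only
    exact mul_pos hc (by linarith [hα])
  · intro r hr
    have hTr : 0 < T * r := mul_pos hT hr.1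
    have e1 : deriv (fun r => c * (α - P.W (T * r))) = fun r => -(c * (P.V (T * r) * T)) :=
      funext fun r => (hd r).deriv
    have h1 : HasDerivAt (fun r : ℝ => T * r) T r := by
      simpa using (hasDerivAt_id r).const_mul T
    have h2 : HasDerivAt (fun r => -(c * (P.V (T * r) * T)))
        (-(c * ((P.F (T * r) - (n - 1) / (T * r) * P.V (T * r)) * T * T))) r :=
      ((((P.eqn (T * r) hTr).comp r h1).mul_const T).const_mul c).neg
    rw [e1, h2.deriv, hf r hr]
    have hr0 : r ≠ 0 := hr.1.ne'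
    have hT0 : T ≠ 0 := hT.ne'
    simp only
    field_simp
    ring

/-- Q1 is answered in the negative for EVERY real `n > 1` and at every height `α > 0`: there is an
admissible `f` (continuously differentiable with `f_r ≤ 0`), which is moreover nonnegative and of
class `C^∞` on the whole plane, such that the problem has two positive solutions, for two different values `lam₁ < lam₂` of the
parameter, with the same value `u(0) = α`. In particular `u(0)` is not a global parameter. -/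
theorem result (n : ℝ) (hn : 1 < n) (α : ℝ) (hα : 0 < α) :
    ∃ f : ℝ → ℝ → ℝ, Admissible f ∧ ContDiff ℝ ∞ (Function.uncurry f) ∧ (∀ r u, 0 ≤ f r u) ∧
      (∃ (lam₁ lam₂ : ℝ) (u₁ u₂ : ℝ → ℝ), lam₁ < lam₂ ∧ PositiveSolution n f lam₁ u₁ ∧
        PositiveSolution n f lam₂ u₂ ∧ u₁ 0 = α ∧ u₂ 0 = α) ∧ ¬ IsGlobalParameter n f := by
  obtain ⟨P2, b1, b2, b3, b4⟩ := exists_core hn
  obtain ⟨M, hM, b5⟩ := b4 ((1 / 4 : ℝ) ^ (n - 1) / 2) (by positivity)
  obtain ⟨P1, a1, a2, a3, a4⟩ := exists_kick hn hM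
  obtain ⟨T1, c1, c2, c3, c4⟩ := crossing hn P1 P2 (M := M) (T := 2 * M + 2) hM (by linarith)
    a1 a2 a3 b1 b2 b3 (by linarith)
  have hT1 : 0 < T1 := by linarith
  have hF : ∀ s t, 0 < s → s < T1 → 0 < t → t < 2 * M + 2 → P1.W s = P2.W t → P1.F s ≤ P2.F t := by
    intro s t hs hs' ht ht' hst
    rcases le_or_gt t 1 with h | h
    · rw [b1 t h]; exact a1 s
    · have h1 : P2.W 1 < P2.W t := P2.W_strictMonoOn (mem_Ici.2 one_pos.le) (mem_Ici.2 ht.le) h
      have h2 : M + 1 ≤ s := by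
        by_contra h3
        push Not at h3
        have := P1.W_strictMonoOn (mem_Ici.2 hs.le) (mem_Ici.2 (by linarith)) h3
        linarith
      rw [a2 s h2]
      exact P2.F_nonneg t
  obtain ⟨g, f1, f0, f2, f3, f4⟩ := build_nonneg P1 P2 (T1 := T1) (T2 := 2 * M + 2) (M1 := M + 1)
    (M2 := 2) hT1 c2 c3 c4 hF (by linarith) c1 a2 two_pos (by linarith) b2
  have hW : 0 < P1.W T1 := by
    have := P1.W_strictMonoOn (mem_Ici.2 (le_refl 0)) (mem_Ici.2 hT1.le) hT1
    rwa [P1.W_zero] at this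
  -- scaling to the height `α`
  obtain ⟨c, hc, hcα⟩ : ∃ c : ℝ, 0 < c ∧ c * P1.W T1 = α :=
    ⟨α / P1.W T1, by positivity, by field_simp⟩
  let f : ℝ → ℝ → ℝ := fun r u => c * g r (u / c)
  have s1 : PositiveSolution n f (T1 ^ 2) (fun r => c * (P1.W T1 - P1.W (T1 * r))) := by
    refine solution P1 hT1 hc rfl fun r hr => ?_
    simp only [f]
    rw [mul_div_cancel_left₀ _ hc.ne', f3 r hr]
  have s2 : PositiveSolution n f ((2 * M + 2) ^ 2)
      (fun r => c * (P1.W T1 - P2.W ((2 * M + 2) * r))) := by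
    refine solution P2 (T := 2 * M + 2) (by linarith) hc c3.symm fun r hr => ?_
    simp only [f]
    rw [mul_div_cancel_left₀ _ hc.ne', f4 r hr]
  have hlam : T1 ^ 2 < (2 * M + 2) ^ 2 := by
    have := mul_self_lt_mul_self hT1.le c2
    nlinarith
  have v1 : (fun r => c * (P1.W T1 - P1.W (T1 * r))) 0 = α := by simp [P1.W_zero, hcα]
  have v2 : (fun r => c * (P1.W T1 - P2.W ((2 * M + 2) * r))) 0 = α := by simp [P2.W_zero, hcα]
  have hfs : ContDiff ℝ ∞ (Function.uncurry f) := by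
    have : ContDiff ℝ ∞ (fun p : ℝ × ℝ => c * Function.uncurry g (p.1, p.2 / c)) :=
      contDiff_const.mul (f1.comp (contDiff_fst.prodMk (contDiff_snd.div_const c)))
    exact this
  refine ⟨f, ⟨(hfs.of_le (by exact_mod_cast le_top)).contDiffOn, fun r hr u _ => ?_⟩, hfs,
    fun r u => mul_nonneg hc.le (f0 _ _), ⟨_, _, _, _, hlam, s1, s2, v1, v2⟩, fun h => ?_⟩
  · obtain ⟨d, hd, hd'⟩ := f2 r (u / c) hr.1
    have h3 : HasDerivAt (fun t => f t u) (c * d) r := hd'.const_mul c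
    rw [h3.hasDerivWithinAt.derivWithin (uniqueDiffOn_Icc one_pos r hr)]
    exact mul_nonpos_of_nonneg_of_nonpos hc.le hd
  · have := (h _ _ _ _ s1 s2 (v1.trans v2.symm)).1
    linarith

end Pool.Agent.Results.MP_eab5ac_an.SmoothNonneg
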